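import Pool.Agent.Helper980.Polar.Gch
import Pool.Agent.Helper669.VFinal

set_option autoImplicit false

/-!
# Forcing the failure of the polarized relation `(μ⁺, μ⁺⁺) → ((μ⁺, μ⁺), (μ, μ))`

The forcing notion of `Helper980/Prikry`; here its effect is expressed by the polarized relation
of `Helper669/VGch`.
-/

namespace Pool.Agent.U74.PolNeg

open Cardinal Ordinal Set

section core

open Pool.Agent.Helper980.Polar Pool.Agent.Helper980.Prikry

variable {mu : Cardinal.{0}} {S C : Type} [Nonempty C]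

/-- the key lemma: `A` is only assumed not to be covered by a ground model set of size `μ` -/
theorem core' (h0 : ℵ₀ ≤ mu) (hC : #C ≤ mu) {I K : Type} (hI : #I = mu) (e : K ≃ Lam mu)
    (A : K → Set (Cond mu S C)) (B : S → Set (Cond mu S C)) (r : Cond mu S C)
    (hA : ∀ t ≤ r, ∀ D : Set K, #D ≤ mu → ∃ s ≤ t, ∃ a, a ∉ D ∧ s ∈ meets (A a))
    (hB : r ∈ AtLeast I fun y => meets (B y)) (c : C)
    (t : Cond mu S C) (ht : t ≤ r) :
    ∃ s ≤ t, ∃ ξ y, e ξ < s.top ∧ y ∈ s.a ∧ s.f (e ξ) y = c ∧ s ∈ meets (A ξ) ∧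
      s ∈ meets (B y) := by
  classical
  obtain ⟨t1, ht1, R, ⟨hR1, hR2⟩, hR3⟩ := mem_fex.1 hB t ht
  obtain ⟨t2, ht2, f, hf⟩ := decide_fun' h0 hC (A := I) hI.le R t1 hR1
  have hinj : Function.Injective f := by
    intro i i' hii
    obtain ⟨_, _, h3⟩ := mem_fimp.1 (hR2 i i' (f i)) t2 ht2 ⟨hf i, by rw [hii]; exact hf i'⟩
    exact h3
  have hcard : #(range f) = mu := by rw [mk_range_eq _ hinj, hI]
  obtain ⟨t3, ht3, _, _, hpr⟩ := extend h0 hC t2 t2.top (range f) hcard.le {range f}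
    (by rw [mk_singleton]; exact one_le_aleph0.trans h0) (by
      intro D hD
      rw [mem_singleton_iff] at hD
      subst hD
      exact ⟨Subset.rfl, hcard.ge⟩)
  have hpr' : range f ∈ t3.pr := hpr rfl
  obtain ⟨s, hs, a, haD, hsa⟩ := hA t3 (ht3.trans (ht2.trans (ht1.trans ht)))
    {a : K | e a < t3.top} (by
      have h1 : #{a : K | e a < t3.top} ≤ #(Iio t3.top) :=
        mk_le_of_injective (f := fun a => (⟨e a.1, a.2⟩ : Iio t3.top))
          (fun a b hab => Subtype.ext (e.injective (congrArg Subtype.val hab)))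
      exact h1.trans (mk_Iio_le t3.top))
  have ha : t3.top ≤ e a := not_lt.1 haD
  obtain ⟨s', hs', ha', _, _⟩ := extend h0 hC s (e a) ∅ (by simp) ∅ (by simp) (by simp)
  have hs3 : s' ≤ t3 := hs'.trans hs
  obtain ⟨x, ⟨i, hi⟩, hxc⟩ := hs3.2.2.2.2 _ hpr' (e a) ha ha' c
  subst hi
  have hxa : f i ∈ s'.a := hs3.2.1 ((t3.hB _ hpr').1 ⟨i, rfl⟩)
  obtain ⟨s1, hs1, h1⟩ := mem_fimp.1 (hR3 i (f i)) s' (hs3.trans (ht3.trans ht2))
    (down_meets _ _ (hf i) _ (hs3.trans ht3))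
  refine ⟨s1, hs1.trans (hs3.trans (ht3.trans (ht2.trans ht1))), a, f i,
    ha'.trans_le hs1.1, hs1.2.1 hxa, ?_, down_meets _ _ hsa _ (hs1.trans hs'), h1⟩
  rw [hs1.2.2.2.1 (e a) ha' (f i) hxa, hxc]

end core

section sizes

open Pool.Agent.Helper669.Forcing Pool.Agent.Helper669.K Pool.Agent.Helper669.U
  Pool.Agent.Helper669.V Pool.Agent.Helper980.G

variable {P : Type} [Preorder P]

/-- ground model functions name functions -/
theorem isFun_ground {X Y : Type} (f : X → Y) (p : P) :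
    p ∈ IsFun fun x y => fground (P := P) (f x = y) := by
  refine ⟨fun x => mem_fex.2 fun r _ => ⟨r, le_rfl, f x, meets_of_mem rfl⟩,
    fun y x x' => mem_fimp.2 fun r _ hr => ⟨r, le_rfl, ?_⟩⟩
  obtain ⟨_, _, _, h1, _⟩ := hr.1 r le_rfl
  obtain ⟨_, _, _, h2, _⟩ := hr.2 r le_rfl
  have h1' : f y = x := h1
  have h2' : f y = x' := h2
  exact h1'.symm.trans h2'

/-- a named subset of full size is not covered by a small ground model set -/
theorem notCovered {K : Type} {A : K → Set P} {r : P} (hA : r ∈ HasFullSize A) (t : P)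
    (ht : t ≤ r) (D : Set K) (hD : #D < #K) : ∃ s ≤ t, ∃ a, a ∉ D ∧ s ∈ meets (A a) := by
  classical
  by_contra hcon
  push Not at hcon
  obtain ⟨e⟩ : Nonempty ((#D).out ≃ D) := by
    rw [← Cardinal.eq, mk_out]
  refine hA (#D) hD t ht (mem_fex.2 fun q hq => ⟨q, le_rfl,
    fun x y => fground ((e x : K) = y), isFun_ground _ q, fun y => mem_fimp.2 ?_⟩)
  intro s hs hy
  refine ⟨s, le_rfl, mem_fex.2 fun s' hs' => ?_⟩
  have hyD : y ∈ D := by
    by_contra hyD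
    exact hcon s' (hs'.trans (hs.trans hq)) y hyD (down_meets _ _ hy _ hs')
  exact ⟨s', le_rfl, e.symm ⟨y, hyD⟩, meets_of_mem (by
    show ((e (e.symm ⟨y, hyD⟩) : D) : K) = y
    rw [e.apply_symm_apply])⟩

/-- the power set function from an enumeration -/
theorem powOnto_of_powerLe {ν μ : Cardinal.{0}} {p : P}
    (h : p ∈ PowerLe P ν.ord.ToType μ.ord.ToType) : p ∈ PowOnto P ν μ := by
  refine mem_fex.2 fun q hq => ?_
  obtain ⟨r, hr, E, hE⟩ := mem_fex.1 h q hq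
  refine ⟨r, hr, E, fun X => mem_fex.2 fun s hs => ?_⟩
  obtain ⟨s', hs', y, hy⟩ := mem_fex.1 (hE X) s hs
  exact ⟨s', hs', y, fun x => (hy x).2, fun x => (hy x).1⟩

/-- ground model collapses -/
theorem collapsedTo_succ (ν : Cardinal.{0}) (p : P) : p ∈ CollapsedTo P ν (Order.succ ν) := by
  intro ν' hν'
  have h1 : #(ν'.out) ≤ #(ν.ord.ToType) := by
    rw [mk_out, mk_ord_toType]
    exact Order.lt_succ_iff.1 hν'
  obtain ⟨g⟩ := h1
  refine mem_fex.2 fun q _ => ⟨q, le_rfl, fun x y => fground (g y = x), ?_, ?_⟩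
  · intro x y y'
    refine mem_fimp.2 fun r _ hr => ⟨r, le_rfl, ?_⟩
    obtain ⟨_, _, _, h1, _⟩ := hr.1 r le_rfl
    obtain ⟨_, _, _, h2, _⟩ := hr.2 r le_rfl
    have h1' : g y = x := h1
    have h2' : g y' = x := h2
    exact g.injective (h1'.trans h2'.symm)
  · intro y
    exact mem_fex.2 fun r _ => ⟨r, le_rfl, g y, meets_of_mem rfl⟩

/-- preservation of GCH and of all cardinals -/
theorem package {θ : Cardinal.{0}} (hθ : ℵ₀ ≤ θ)
    (hG : ∀ ν : Cardinal.{0}, ℵ₀ ≤ ν → 2 ^ ν = Order.succ ν)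
    (hP : #P ≤ Order.succ (Order.succ θ))
    (hcc : ∀ Z : Set P, (∀ p ∈ Z, ∀ q ∈ Z, p ≠ q → ¬ ∃ r, r ≤ p ∧ r ≤ q) →
      #Z ≤ Order.succ θ)
    (hnn : ∀ (A Y : Type) (_ : #A ≤ θ) (R : A → Y → Set P) (p : P), p ∈ IsFun R →
      ∃ q ≤ p, ∃ f : A → Y, ∀ a, q ∈ meets (R a (f a))) (p : P) :
    p ∈ CardinalsPreserved.{0, 0} P ∧ p ∈ Pool.Agent.Helper669.V.ForcesGCH P := by
  have hs0 : ℵ₀ ≤ Order.succ θ := hθ.trans (Order.le_succ θ)
  have hP' : #P ≤ 2 ^ Order.succ θ := by rwa [hG _ hs0]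
  refine ⟨cardinals_preserved hs0 (fun ν h => Order.succ_le_of_lt h) hcc hnn p, ?_⟩
  intro ν hν
  refine mem_fex.2 fun q _ => ⟨q, le_rfl, Order.succ ν, ?_, collapsedTo_succ ν q⟩
  refine powOnto_of_powerLe ?_
  have hX : #(ν.ord.ToType) = ν := mk_ord_toType ν
  have hY : 2 ^ #(ν.ord.ToType) ≤ #((Order.succ ν).ord.ToType) := by
    rw [hX, mk_ord_toType, hG ν hν]
  rcases le_or_gt ν θ with h3 | h3
  · exact powerLe_small hY
      (fun A p => decide_subset A (fun Y R hp => hnn _ Y (hX.trans_le h3) R p hp)) q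
  · exact powerLe_big hs0 hcc hP' (by rw [hX]; exact Order.succ_le_of_lt h3) hY q

end sizes

section final

open Pool.Agent.Helper669.Forcing Pool.Agent.Helper669.K Pool.Agent.Helper669.U
  Pool.Agent.Helper669.V Pool.Agent.Helper980.G
open Pool.Agent.Helper980.Prikry (Cond gen gen_unique)

theorem notPolarizedRel {mu : Cardinal.{0}} (h0 : ℵ₀ ≤ mu) {K S W : Type}
    (hK : #K = Order.succ mu) (hW : #W = mu) [Nonempty W] (p : Cond mu S W) :
    p ∈ fnot (PolarizedRel (Cond mu S W) K S W) := by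
  classical
  intro q _ hq
  have hW1 : 1 < #W := by
    rw [hW]
    exact one_lt_aleph0.trans_le h0
  obtain ⟨c0, c1, hc⟩ := one_lt_iff_nontrivial.1 hW1
  obtain ⟨e⟩ : Nonempty (K ≃ Pool.Agent.Helper980.Polar.Lam mu) := by
    rw [← Cardinal.eq, hK, Pool.Agent.Helper980.Polar.mk_Lam]
  obtain ⟨r, hr, A, h1⟩ := mem_fex.1 (hq fun x y => gen e x y c1) q le_rfl
  obtain ⟨s, hs, B, hA, hB, h2⟩ := mem_fex.1 h1 r le_rfl
  have hA' : ∀ t ≤ s, ∀ D : Set K, #D ≤ mu → ∃ s' ≤ t, ∃ a, a ∉ D ∧ s' ∈ meets (A a) := by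
    intro t ht D hD
    exact notCovered hA t ht D (by rw [hK]; exact Order.lt_succ_iff.2 hD)
  have hB' : s ∈ Pool.Agent.Helper980.Polar.AtLeast W
      (fun y => Pool.Agent.Helper980.Polar.meets (B y)) := by
    refine Pool.Agent.Helper980.Polar.mem_fex.2 fun q hq => ?_
    obtain ⟨r, hr, R, h1, h2, h3⟩ := mem_fex.1 hB q hq
    exact ⟨r, hr, R, ⟨h1, h2⟩, fun a y => (h3 y).2 a⟩
  obtain ⟨t, ht, h3⟩ := mem_for h2
  rcases h3 with h3 | h3
  · obtain ⟨s1, hs1, ξ, y, g1, g2, g3, g4, g5⟩ := core' h0 hW.le hW e A B s hA' hB' c0 t ht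
    obtain ⟨s2, hs2, h4⟩ := mem_fimp.1 (h3 ξ y) s1 hs1 ⟨g4, g5⟩
    have h5 : s1 ∈ gen e ξ y c0 := ⟨g1, g2, g3⟩
    have h6 : s2 ∈ meets (gen e ξ y c0) := down_meets _ _ (meets_of_mem h5) _ hs2
    exact hc (gen_unique h6 h4)
  · obtain ⟨s1, hs1, ξ, y, g1, g2, g3, g4, g5⟩ := core' h0 hW.le hW e A B s hA' hB' c1 t ht
    obtain ⟨s2, hs2, h4⟩ := mem_fimp.1 (h3 ξ y) s1 hs1 ⟨g4, g5⟩
    have h5 : s1 ∈ gen e ξ y c1 := ⟨g1, g2, g3⟩
    exact h4 s2 le_rfl (down_meets _ _ (meets_of_mem h5) _ hs2)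

/-- Under GCH the failure of `(μ⁺, μ⁺⁺) → ((μ⁺, μ⁺), (μ, μ))` can be forced, with GCH and all
cardinals preserved. -/
theorem forced (hG : ∀ ν : Cardinal.{0}, ℵ₀ ≤ ν → 2 ^ ν = Order.succ ν) {mu : Cardinal.{0}}
    (h0 : ℵ₀ ≤ mu) {K S W : Type} (hK : #K = Order.succ mu)
    (hS : #S = Order.succ (Order.succ mu)) (hW : #W = mu) :
    ∃ (P : Type) (_ : Preorder P), Nonempty P ∧ ∀ p : P,
      p ∈ CardinalsPreserved.{0, 0} P ∧ p ∈ Pool.Agent.Helper669.V.ForcesGCH P ∧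
      p ∈ fnot (PolarizedRel P K S W) := by
  have hWne : Nonempty W := by
    rw [← mk_ne_zero_iff, hW]
    exact (aleph0_pos.trans_le h0).ne'
  have hSne : Nonempty S := by
    rw [← mk_ne_zero_iff, hS]
    exact (aleph0_pos.trans_le ((h0.trans (Order.le_succ mu)).trans (Order.le_succ _))).ne'
  refine ⟨Cond mu S W, inferInstance, Pool.Agent.Helper980.Prikry.nonempty_cond h0, fun p => ?_⟩
  obtain ⟨h1, h2⟩ := package h0 hG
    (Pool.Agent.Helper980.Prikry.mk_cond h0 hW.le (hG mu h0) hS.le)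
    (Pool.Agent.Helper980.Prikry.chain h0 hW.le (hG mu h0))
    (fun A Y hA R p hp => Pool.Agent.Helper980.Prikry.decide_fun' h0 hW.le hA R p hp) p
  exact ⟨h1, h2, notPolarizedRel h0 hK hW p⟩

end final

end Pool.Agent.U74.PolNeg
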